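import Mathlib

/-!
[H69 CU EV] Powers of `log x` against powers of `x`.
-/

namespace Pool.Agent.H69.CU

open Filter

theorem ev_log (k : ℕ) (e c : ℝ) (he : 0 < e) (hc : 0 < c) :
    ∀ᶠ x : ℕ in atTop, Real.log x ^ k ≤ c * (x : ℝ) ^ e := by
  have t1 : Tendsto (fun x : ℕ => (x : ℝ)) atTop atTop := tendsto_natCast_atTop_atTop
  have h := (isLittleO_log_rpow_rpow_atTop (k : ℝ) he).def hc
  filter_upwards [t1.eventually h, eventually_ge_atTop 3] with x hx hx3
  have hx3' : (3 : ℝ) ≤ x := by exact_mod_cast hx3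
  have hl : 0 ≤ Real.log x := Real.log_nonneg (by linarith)
  rw [Real.norm_eq_abs, Real.norm_eq_abs, abs_of_nonneg (by positivity), abs_of_nonneg (by positivity)] at hx
  rw [← Real.rpow_natCast]
  exact hx

end Pool.Agent.H69.CU
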