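import Pool.Agent.H69.CU.Mid
import Pool.Agent.H69.CU.Ev
import Pool.Agent.H69.CP.Rgh

/-!
[H69 CU SHI] Cyclic numbers in short intervals: `(x, x+y]` contains at least `c7 y / log x` of them if `y ≥ C7 x ^ (2/5) (log x)^2`.
-/

namespace Pool.Agent.H69.CU

open Finset Classical Filter

open Pool.Agent.H69.CP (rough_block Rough)
open Pool.Agent.H69

theorem cyc_short7 : ∃ c3 C3 : ℝ, 0 < c3 ∧ 1 ≤ C3 ∧ ∃ x0 : ℕ, 20 ≤ x0 ∧ ∀ x y : ℕ, x0 ≤ x →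
    C3 * (x : ℝ) ^ (2 / 5 : ℝ) * Real.log x ^ 2 ≤ y → y ≤ x →
    c3 * y / Real.log x ≤ (((Ioc x (x + y)).filter CY.IsCyclicNumber).card : ℝ) := by
  obtain ⟨a, c1, ha, ha1, hc1, h0, h03, hr⟩ := rough_block
  obtain ⟨κ, hκd⟩ : ∃ κ : ℕ, κ = ⌈5 / a⌉₊ := ⟨_, rfl⟩
  obtain ⟨K, hK⟩ : ∃ K : ℝ, K = 2 ^ κ := ⟨_, rfl⟩
  have hK0 : 0 < K := by rw [hK]; positivity
  obtain ⟨M, hM⟩ : ∃ M : ℝ, M = 500 + c1 + 2 * K + 32 * K / c1 := ⟨_, rfl⟩
  have hM0 : 0 < M := by rw [hM]; positivity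
  have t1 : Tendsto (fun x : ℕ => (x : ℝ)) atTop atTop := tendsto_natCast_atTop_atTop
  have e1 := ev_log 3 (2 * a / 5) (c1 / 207680) (by positivity) (by positivity)
  have e3 := ev_log 3 (1 / 5) (c1 / (8 * (15 + K))) (by norm_num) (by positivity)
  have e4 := ev_log 1 (2 / 5) (c1 / (8 * K)) (by norm_num) (by positivity)
  have e2 : ∀ᶠ x : ℕ in atTop, (h0 : ℝ) ≤ (x : ℝ) ^ (2 / 5 : ℝ) :=
    ((tendsto_rpow_atTop (show (0 : ℝ) < 2 / 5 by norm_num)).comp t1).eventually_ge_atTop _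
  have e5 : ∀ᶠ x : ℕ in atTop, (4 : ℝ) ≤ (x : ℝ) ^ (1 / 15 : ℝ) :=
    ((tendsto_rpow_atTop (show (0 : ℝ) < 1 / 15 by norm_num)).comp t1).eventually_ge_atTop _
  obtain ⟨x1, hx1⟩ := eventually_atTop.1 ((((e1.and e2).and e3).and e4).and e5)
  refine ⟨c1 / 2, 1 + 8 * M / c1, by positivity, ?_, max x1 100, by have := le_max_right x1 100; omega, ?_⟩
  · have : 0 < 8 * M / c1 := by positivity
    linarith
  intro x y hx hy hyx
  obtain ⟨⟨⟨⟨g1, g2⟩, g3⟩, g4⟩, g5⟩ := hx1 x (le_trans (le_max_left _ _) hx)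
  have hx100 : 100 ≤ x := le_trans (le_max_right _ _) hx
  have hxR : (100 : ℝ) ≤ x := by exact_mod_cast hx100
  have hx0 : (0 : ℝ) < x := by linarith
  have hx1' : (1 : ℝ) ≤ x := by linarith
  set L := Real.log x with hL
  have hL3 : 3 ≤ L := by
    rw [hL, Real.le_log_iff_exp_le hx0]
    have h1 : Real.exp 3 = Real.exp 1 ^ 3 := by rw [← Real.exp_nat_mul]; norm_num
    have h2 := Real.exp_one_lt_d9
    rw [h1]
    have h3 : Real.exp 1 ^ 3 ≤ 2.7182818286 ^ 3 := pow_le_pow_left₀ (Real.exp_pos _).le h2.le 3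
    have h4 : (2.7182818286 : ℝ) ^ 3 ≤ 100 := by norm_num
    linarith
  have hL0 : 0 < L := by linarith
  obtain ⟨t, ht⟩ : ∃ t : ℝ, t = (x : ℝ) ^ (1 / 15 : ℝ) := ⟨_, rfl⟩
  rw [← ht] at g5
  have ht0 : 0 < t := by linarith
  have ht1 : 1 ≤ t := by linarith
  have tp : ∀ (k : ℕ) (e : ℝ), e = k / 15 → (x : ℝ) ^ e = t ^ k := by
    intro k e he
    rw [ht, ← Real.rpow_natCast, ← Real.rpow_mul hx0.le, he]
    congr 1
    ring
  have hZ : (x : ℝ) ^ (2 / 5 : ℝ) = t ^ 6 := tp 6 _ (by norm_num)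
  have hV : (x : ℝ) ^ (1 / 5 : ℝ) = t ^ 3 := tp 3 _ (by norm_num)
  have h13 : (x : ℝ) ^ (1 / 3 : ℝ) = t ^ 5 := tp 5 _ (by norm_num)
  have h1 : (x : ℝ) = t ^ 15 := by
    have := tp 15 1 (by norm_num)
    rwa [Real.rpow_one] at this
  rw [hZ] at g2 hy g4
  rw [pow_one] at g4
  rw [hV] at g3
  have ht6 : 1 ≤ t ^ 6 := one_le_pow₀ ht1
  have hy1 : t ^ 6 ≤ y := by
    refine le_trans ?_ hy
    have h1 : 1 ≤ 1 + 8 * M / c1 := by
      have : 0 < 8 * M / c1 := by positivity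
      linarith
    have h2 : 1 ≤ L ^ 2 := one_le_pow₀ (by linarith only [hL3])
    calc t ^ 6 = 1 * t ^ 6 * 1 := by ring
      _ ≤ (1 + 8 * M / c1) * t ^ 6 * L ^ 2 := by gcongr
  have hy2 : 8 * M / c1 * t ^ 6 * L ^ 2 ≤ y := by
    refine le_trans ?_ hy
    gcongr
    linarith only
  have hyR : (1 : ℝ) ≤ y := ht6.trans hy1
  have hy0 : (0 : ℝ) < y := by linarith
  have hyh : h0 ≤ y := by exact_mod_cast g2.trans hy1
  have hlogy0 : 0 < Real.log y := by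
    apply Real.log_pos
    have : (3 : ℝ) ≤ y := by exact_mod_cast h03.trans hyh
    linarith
  have hlogy : Real.log y ≤ L := Real.log_le_log hy0 (by exact_mod_cast hyx)
  -- rough numbers
  have hR := hr y hyh x
  have hR2 : c1 * y / L ≤ (((Ioc x (x + y)).filter fun m => Rough ((y : ℝ) ^ a) m).card : ℝ) := by
    refine le_trans ?_ hR
    gcongr
  -- bad numbers
  have hw1 : (1 : ℝ) ≤ (y : ℝ) ^ a := Real.one_le_rpow hyR ha.le
  have hκ : 2 * (x : ℝ) < ((y : ℝ) ^ a) ^ (κ + 1) := by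
    have h2 : ((y : ℝ) ^ a) ^ (κ + 1) = (y : ℝ) ^ (a * ((κ + 1 : ℕ) : ℝ)) := by
      rw [← Real.rpow_natCast, ← Real.rpow_mul hy0.le]
    have h3 : (5 : ℝ) ≤ a * ((κ + 1 : ℕ) : ℝ) := by
      have h4 : 5 / a ≤ (κ : ℝ) := by rw [hκd]; exact Nat.le_ceil _
      rw [div_le_iff₀ ha] at h4
      push_cast
      rw [mul_add, mul_one]
      linarith only [h4, ha]
    rw [h2]
    calc 2 * (x : ℝ) < x * x := mul_lt_mul_of_pos_right (by linarith only [hxR]) hx0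
      _ = (t ^ 6) ^ (5 : ℝ) := by
        rw [h1, show (5 : ℝ) = ((5 : ℕ) : ℝ) by norm_num, Real.rpow_natCast]
        ring
      _ ≤ (y : ℝ) ^ (5 : ℝ) := Real.rpow_le_rpow (by positivity) hy1 (by norm_num)
      _ ≤ (y : ℝ) ^ (a * ((κ + 1 : ℕ) : ℝ)) := Real.rpow_le_rpow_of_exponent_le hyR h3
  obtain ⟨P0, hP0⟩ : ∃ P : ℕ, P = ⌈t ^ 3⌉₊ := ⟨_, rfl⟩
  obtain ⟨P1, hP1⟩ : ∃ P : ℕ, P = ⌊t ^ 5⌋₊ := ⟨_, rfl⟩
  obtain ⟨T, hT⟩ : ∃ T : ℕ, T = ⌊c1 / (8 * K) * t ^ 6 / L⌋₊ := ⟨_, rfl⟩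
  have ht3 : 1 ≤ t ^ 3 := one_le_pow₀ ht1
  have ht5 : 1 ≤ t ^ 5 := one_le_pow₀ ht1
  have a1 : t ^ 3 ≤ P0 := by rw [hP0]; exact Nat.le_ceil _
  have a2 : (P0 : ℝ) ≤ 2 * t ^ 3 := by
    have := (Nat.ceil_lt_add_one (show 0 ≤ t ^ 3 by positivity)).le
    rw [← hP0] at this
    linarith
  have a3 : (P1 : ℝ) ≤ t ^ 5 := by rw [hP1]; exact Nat.floor_le (by positivity)
  have a4 : t ^ 5 ≤ 2 * P1 := by
    have h1 := Nat.lt_floor_add_one (t ^ 5)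
    rw [← hP1] at h1
    have h2 : 1 ≤ P1 := by rw [hP1]; exact Nat.le_floor (by exact_mod_cast ht5)
    have h2 : (1 : ℝ) ≤ P1 := by exact_mod_cast h2
    linarith
  have b0 : 1 ≤ c1 / (8 * K) * t ^ 6 / L := by
    rw [le_div_iff₀ hL0, one_mul]
    exact g4
  have b1 : (T : ℝ) ≤ c1 / (8 * K) * t ^ 6 / L := by rw [hT]; exact Nat.floor_le (by positivity)
  have hT1 : 1 ≤ T := by rw [hT]; exact Nat.le_floor (by exact_mod_cast b0)
  have hTR : (1 : ℝ) ≤ T := by exact_mod_cast hT1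
  have hT0 : (0 : ℝ) < T := by linarith
  have b2 : c1 / (8 * K) * t ^ 6 / L ≤ 2 * T := by
    have h1 := Nat.lt_floor_add_one (c1 / (8 * K) * t ^ 6 / L)
    rw [← hT] at h1
    linarith
  have hP01 : 1 ≤ P0 := by
    have : (1 : ℝ) ≤ P0 := ht3.trans a1
    exact_mod_cast this
  have hP0R : (0 : ℝ) < P0 := by exact_mod_cast hP01
  have hPP : P0 ≤ P1 := by
    have h2 : (P0 : ℝ) ≤ P1 := by
      have h3 : 4 * t ^ 3 ≤ t ^ 5 := by
        have h4 : 4 ≤ t * t := g5.trans (le_mul_of_one_le_left ht0.le ht1)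
        calc 4 * t ^ 3 ≤ (t * t) * t ^ 3 := by gcongr
          _ = t ^ 5 := by ring
      linarith
    exact_mod_cast h2
  have hP1R : (0 : ℝ) < P1 := by
    have : (P0 : ℝ) ≤ P1 := by exact_mod_cast hPP
    linarith
  obtain ⟨S, hS⟩ : ∃ S : ℕ, S = Nat.sqrt (2 * x) := ⟨_, rfl⟩
  have hS3 : 3 ≤ S := by
    rw [hS, Nat.le_sqrt]; omega
  have hS2x : S * S ≤ 2 * x := by rw [hS]; exact Nat.sqrt_le _
  have hP1x : P1 ≤ 2 * x := by
    have h2 : (P1 : ℝ) ≤ 2 * x := by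
      calc (P1 : ℝ) ≤ t ^ 5 := a3
        _ ≤ t ^ 15 := pow_le_pow_right₀ ht1 (by norm_num)
        _ = x := h1.symm
        _ ≤ 2 * x := by linarith
    exact_mod_cast h2
  have hPx : P0 ^ 2 ≤ x := by
    have h2 : (P0 : ℝ) ^ 2 ≤ x := by
      calc (P0 : ℝ) ^ 2 ≤ (2 * t ^ 3) ^ 2 := pow_le_pow_left₀ hP0R.le a2 2
        _ = 4 * t ^ 6 := by ring
        _ ≤ t ^ 9 * t ^ 6 := by
          have h3 : t ≤ t ^ 9 := by
            calc t = t ^ 1 := (pow_one t).symm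
              _ ≤ t ^ 9 := pow_le_pow_right₀ ht1 (by norm_num)
          gcongr
          linarith
        _ = x := by rw [h1]; ring
    exact_mod_cast h2
  have hB := bad_short7 x y P0 P1 T κ S ((y : ℝ) ^ a) hw1 (by omega) hyx hS hS3 hP01 hPP hP1x hPx hT1 hκ
  rw [← hK] at hB
  have hSx : S ≤ x := by
    have : 3 * S ≤ S * S := Nat.mul_le_mul_right S hS3
    omega
  have hlogS0 : 0 ≤ Real.log S := Real.log_nonneg (by exact_mod_cast (by omega : 1 ≤ S))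
  have hlogS : Real.log S ≤ L := by
    apply Real.log_le_log (by exact_mod_cast (by omega : 0 < S))
    exact_mod_cast hSx
  have hΛ : 1 + Real.log S ≤ 2 * L := by linarith
  have hl2x : 1 + Real.log (2 * x) ≤ 2 * L := by
    rw [Real.log_mul (by norm_num) hx0.ne']
    have := Real.log_two_lt_d9
    linarith
  have hl2x0 : 0 ≤ 1 + Real.log (2 * x) := by
    have := Real.log_nonneg (show (1 : ℝ) ≤ 2 * x by linarith)
    linarith
  have hya : (207680 / c1) * L ^ 3 ≤ (y : ℝ) ^ a := by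
    have h1 : (x : ℝ) ^ (2 * a / 5) = (t ^ 6) ^ a := by
      rw [← hZ, ← Real.rpow_mul hx0.le]
      congr 1
      ring
    have h2 : (t ^ 6) ^ a ≤ (y : ℝ) ^ a := Real.rpow_le_rpow (by linarith) hy1 ha.le
    rw [h1] at g1
    have h3 : (207680 / c1) * L ^ 3 ≤ (207680 / c1) * (c1 / 207680 * (t ^ 6) ^ a) := by gcongr
    have h4 : (207680 / c1) * (c1 / 207680 * (t ^ 6) ^ a) = (t ^ 6) ^ a := by field_simp
    linarith
  have f1 : 3245 * (1 + Real.log S) ^ 2 * (2 * y / (y : ℝ) ^ a) ≤ c1 / 8 * (y / L) := by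
    have h1 : 3245 * (1 + Real.log S) ^ 2 * (2 * y / (y : ℝ) ^ a) ≤ 3245 * (2 * L) ^ 2 * (2 * y / (y : ℝ) ^ a) := by
      gcongr
    have h2 : 3245 * (2 * L) ^ 2 * (2 * y / (y : ℝ) ^ a) ≤
        3245 * (2 * L) ^ 2 * (2 * y / ((207680 / c1) * L ^ 3)) := by
      gcongr
    have h3 : 3245 * (2 * L) ^ 2 * (2 * y / ((207680 / c1) * L ^ 3)) = c1 / 8 * (y / L) := by
      field_simp
      norm_num
    linarith
  have hyV : 0 ≤ (y : ℝ) / t ^ 3 := by positivity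
  have f2 : (15 + K) * ((y / t ^ 3) * L ^ 2) ≤ c1 / 8 * (y / L) := by
    have h1 : (8 * (15 + K) / c1) * L ^ 3 ≤ t ^ 3 := by
      have h3 : (8 * (15 + K) / c1) * L ^ 3 ≤ (8 * (15 + K) / c1) * (c1 / (8 * (15 + K)) * t ^ 3) := by gcongr
      have h4 : (8 * (15 + K) / c1) * (c1 / (8 * (15 + K)) * t ^ 3) = t ^ 3 := by field_simp
      linarith
    have h2 : (15 + K) * ((y / t ^ 3) * L ^ 2) ≤ (15 + K) * ((y / ((8 * (15 + K) / c1) * L ^ 3)) * L ^ 2) := by gcongr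
    have h3 : (15 + K) * ((y / ((8 * (15 + K) / c1) * L ^ 3)) * L ^ 2) = c1 / 8 * (y / L) := by
      field_simp
    linarith
  have f3 : M * L * t ^ 6 ≤ c1 / 8 * (y / L) := by
    have h1 : c1 / 8 * ((8 * M / c1 * t ^ 6 * L ^ 2) / L) ≤ c1 / 8 * (y / L) := by gcongr
    have h2 : c1 / 8 * ((8 * M / c1 * t ^ 6 * L ^ 2) / L) = M * L * t ^ 6 := by
      field_simp
    linarith
  have t56 : t ^ 5 ≤ t ^ 6 := pow_le_pow_right₀ ht1 (by norm_num)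
  have t36 : 2 * t ^ 3 ≤ t ^ 6 := by
    calc 2 * t ^ 3 ≤ t ^ 3 * t ^ 3 := by
          have : 2 ≤ t ^ 3 := by
            calc (2 : ℝ) ≤ t := by linarith
              _ = t ^ 1 := (pow_one t).symm
              _ ≤ t ^ 3 := pow_le_pow_right₀ ht1 (by norm_num)
          gcongr
      _ = t ^ 6 := by ring
  have hL2 : L ≤ L ^ 2 := le_self_pow₀ (by linarith only [hL3]) (by norm_num)
  have hL1 : 1 ≤ L ^ 2 := one_le_pow₀ (by linarith only [hL3])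
  have hyP0 : (y : ℝ) / P0 ≤ y / t ^ 3 := by gcongr
  have k1 : 108 * (1 + Real.log S) * ((x : ℝ) ^ (1 / 3 : ℝ) * (P0 : ℝ) ^ (1 / 3 : ℝ)) ≤ 432 * (L * t ^ 6) := by
    have h2 : (P0 : ℝ) ^ (1 / 3 : ℝ) ≤ 2 * t := by
      have h3 : (P0 : ℝ) ≤ (2 * t) ^ 3 := by
        calc (P0 : ℝ) ≤ 2 * t ^ 3 := a2
          _ ≤ 8 * t ^ 3 := by
            have : 0 < t ^ 3 := by positivity
            linarith
          _ = (2 * t) ^ 3 := by ring
      calc (P0 : ℝ) ^ (1 / 3 : ℝ) ≤ ((2 * t) ^ 3) ^ (1 / 3 : ℝ) := Real.rpow_le_rpow hP0R.le h3 (by norm_num)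
        _ = 2 * t := by
          rw [← Real.rpow_natCast, ← Real.rpow_mul (by positivity)]
          norm_num
    rw [h13]
    calc 108 * (1 + Real.log S) * (t ^ 5 * (P0 : ℝ) ^ (1 / 3 : ℝ)) ≤ 108 * (2 * L) * (t ^ 5 * (2 * t)) := by gcongr
      _ = 432 * (L * t ^ 6) := by ring
  have k2 : (y : ℝ) / P0 + P1 ≤ (y / t ^ 3) * L ^ 2 + t ^ 6 := by
    have : (y : ℝ) / t ^ 3 ≤ (y / t ^ 3) * L ^ 2 := le_mul_of_one_le_right hyV hL1
    linarith only [this, hyP0, a3, t56]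
  have k3 : K * (y * T / P0 ^ 2 + y / P0 + 2 * T * (1 + Real.log (2 * x)) + 2 * P1) ≤
      c1 / 8 * (y / L) + K * ((y / t ^ 3) * L ^ 2) + c1 / 2 * t ^ 6 + 2 * K * t ^ 6 := by
    have h2 : (y : ℝ) * T / P0 ^ 2 ≤ y * (c1 / (8 * K) * t ^ 6 / L) / (t ^ 3) ^ 2 := by gcongr
    have h3 : (y : ℝ) * (c1 / (8 * K) * t ^ 6 / L) / (t ^ 3) ^ 2 = c1 / (8 * K) * (y / L) := by
      field_simp
    have h4 : 2 * (T : ℝ) * (1 + Real.log (2 * x)) ≤ 2 * (c1 / (8 * K) * t ^ 6 / L) * (2 * L) := by gcongr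
    have h5 : 2 * (c1 / (8 * K) * t ^ 6 / L) * (2 * L) = c1 / (2 * K) * t ^ 6 := by
      field_simp
      norm_num
    have h6 : (y : ℝ) / t ^ 3 ≤ (y / t ^ 3) * L ^ 2 := le_mul_of_one_le_right hyV hL1
    calc K * (y * T / P0 ^ 2 + y / P0 + 2 * T * (1 + Real.log (2 * x)) + 2 * P1)
        ≤ K * (c1 / (8 * K) * (y / L) + (y / t ^ 3) * L ^ 2 + c1 / (2 * K) * t ^ 6 + 2 * t ^ 6) := by
          apply mul_le_mul_of_nonneg_left _ hK0.le
          rw [h3] at h2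
          rw [h5] at h4
          linarith only [h2, h4, h6, hyP0, a3, t56]
      _ = c1 / 8 * (y / L) + K * ((y / t ^ 3) * L ^ 2) + c1 / 2 * t ^ 6 + 2 * K * t ^ 6 := by
          field_simp
  have k4 : (1 + Real.log (2 * x)) * (y / P0) + 2 * x / T / P0 ≤ 2 * ((y / t ^ 3) * L ^ 2) +
      32 * K / c1 * (L * t ^ 6) := by
    have h2 : (1 + Real.log (2 * x)) * (y / P0) ≤ (2 * L) * (y / t ^ 3) := by gcongr
    have h3 : (2 * L) * (y / t ^ 3) ≤ 2 * ((y / t ^ 3) * L ^ 2) := by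
      calc (2 * L) * (y / t ^ 3) = 2 * ((y / t ^ 3) * L) := by ring
        _ ≤ 2 * ((y / t ^ 3) * L ^ 2) := by gcongr
    have h4 : 2 * (x : ℝ) / T / P0 ≤ 32 * K / c1 * (L * t ^ 6) := by
      rw [div_div, div_le_iff₀ (by positivity)]
      have h5 : c1 / (8 * K) * t ^ 6 / L * t ^ 3 ≤ (2 * T) * P0 := by gcongr
      have h6 : 2 * (x : ℝ) = 16 * K / c1 * (L * t ^ 6) * (c1 / (8 * K) * t ^ 6 / L * t ^ 3) := by
        rw [h1]
        field_simp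
        norm_num
      rw [h6]
      calc 16 * K / c1 * (L * t ^ 6) * (c1 / (8 * K) * t ^ 6 / L * t ^ 3)
          ≤ 16 * K / c1 * (L * t ^ 6) * ((2 * T) * P0) := by gcongr
        _ = 32 * K / c1 * (L * t ^ 6) * (T * P0) := by ring
    linarith only [h2, h3, h4]
  have hxP1 : 2 * (x : ℝ) / P1 ^ 2 ≤ 8 * t ^ 5 := by
    rw [div_le_iff₀ (by positivity)]
    have h2 : (t ^ 5) ^ 2 ≤ (2 * P1) ^ 2 := pow_le_pow_left₀ (by positivity) a4 2
    calc 2 * (x : ℝ) = 2 * t ^ 5 * (t ^ 5) ^ 2 := by rw [h1]; ring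
      _ ≤ 2 * t ^ 5 * (2 * P1) ^ 2 := by gcongr
      _ = 8 * t ^ 5 * P1 ^ 2 := by ring
  have hyP1 : (y : ℝ) / P1 ≤ 2 * (y / t ^ 3) := by
    rw [← mul_div_assoc, div_le_div_iff₀ hP1R (by positivity)]
    have h2 : t ^ 3 ≤ 2 * P1 := le_trans (pow_le_pow_right₀ ht1 (by norm_num)) a4
    calc (y : ℝ) * t ^ 3 ≤ y * (2 * P1) := by gcongr
      _ = 2 * y * P1 := by ring
  have hLt : t ^ 6 ≤ L * t ^ 6 := le_mul_of_one_le_left (by positivity) (by linarith only [hL3])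
  have k5 : (2 * (x : ℝ) / P1 ^ 2) * (1 + Real.log (2 * x)) ≤ 16 * (L * t ^ 6) := by
    calc (2 * (x : ℝ) / P1 ^ 2) * (1 + Real.log (2 * x)) ≤ (8 * t ^ 5) * (2 * L) := by gcongr
      _ = 16 * (L * t ^ 5) := by ring
      _ ≤ 16 * (L * t ^ 6) := by gcongr
  have k6 : (y / P1) * (1 + Real.log (2 * x)) ^ 2 ≤ 8 * ((y / t ^ 3) * L ^ 2) := by
    calc (y / P1) * (1 + Real.log (2 * x)) ^ 2 ≤ (2 * (y / t ^ 3)) * (2 * L) ^ 2 := by gcongr
      _ = 8 * ((y / t ^ 3) * L ^ 2) := by ring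
  have k7 : (y / P1) * (1 + Real.log (2 * x)) ≤ 4 * ((y / t ^ 3) * L ^ 2) := by
    calc (y / P1) * (1 + Real.log (2 * x)) ≤ (2 * (y / t ^ 3)) * (2 * L) := by gcongr
      _ = 4 * ((y / t ^ 3) * L) := by ring
      _ ≤ 4 * ((y / t ^ 3) * L ^ 2) := by gcongr
  have k8 : 10 * t ^ 6 ≤ 10 * (L * t ^ 6) := by linarith only [hLt]
  have k9 : c1 / 2 * t ^ 6 + 2 * K * t ^ 6 ≤ (c1 + 2 * K) * (L * t ^ 6) := by
    calc c1 / 2 * t ^ 6 + 2 * K * t ^ 6 = (c1 / 2 + 2 * K) * t ^ 6 := by ring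
      _ ≤ (c1 + 2 * K) * t ^ 6 := by
          have : c1 / 2 ≤ c1 := by linarith only [hc1]
          gcongr
      _ ≤ (c1 + 2 * K) * (L * t ^ 6) := by gcongr
  have k10 : M * L * t ^ 6 = 500 * (L * t ^ 6) + (c1 + 2 * K) * (L * t ^ 6) + 32 * K / c1 * (L * t ^ 6) := by
    rw [hM]; ring
  have hq : 0 ≤ (y / t ^ 3) * L ^ 2 := by positivity
  have hq2 : 0 ≤ L * t ^ 6 := by positivity
  have hB2 : (((Ioc x (x + y)).filter fun m => ¬ CY.IsCyclicNumber m ∧ Rough ((y : ℝ) ^ a) m).card : ℝ) ≤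
      c1 / 2 * (y / L) := by
    refine hB.trans ?_
    have e : 4 * (c1 / 8 * (y / L)) = c1 / 2 * (y / L) := by ring
    rw [k10] at f3
    have e6 : (15 + K) * ((y / t ^ 3) * L ^ 2) = 15 * ((y / t ^ 3) * L ^ 2) + K * ((y / t ^ 3) * L ^ 2) := by ring
    rw [e6] at f2
    have r1 : (P0 : ℝ) ≤ t ^ 6 := a2.trans t36
    have r2 : 2 * (x : ℝ) / P1 ^ 2 ≤ 8 * t ^ 6 := hxP1.trans (by gcongr)
    have r4 : (y / t ^ 3) * L ^ 2 + 2 * ((y / t ^ 3) * L ^ 2) + 8 * ((y / t ^ 3) * L ^ 2) + 4 * ((y / t ^ 3) * L ^ 2) =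
      15 * ((y / t ^ 3) * L ^ 2) := by ring
    rw [← e]
    linarith only [f1, r1, k1, k2, k3, k4, k5, k6, k7, r2, f2, f3, k8, k9, hq, hq2]
  have hsum : (((Ioc x (x + y)).filter fun m => Rough ((y : ℝ) ^ a) m).card : ℝ) ≤
      (((Ioc x (x + y)).filter CY.IsCyclicNumber).card : ℝ) +
      (((Ioc x (x + y)).filter fun m => ¬ CY.IsCyclicNumber m ∧ Rough ((y : ℝ) ^ a) m).card : ℝ) := by
    have h1 : (Ioc x (x + y)).filter (fun m => Rough ((y : ℝ) ^ a) m) ⊆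
        (Ioc x (x + y)).filter CY.IsCyclicNumber ∪
        (Ioc x (x + y)).filter (fun m => ¬ CY.IsCyclicNumber m ∧ Rough ((y : ℝ) ^ a) m) := by
      intro m hm
      rw [mem_filter] at hm
      rw [mem_union, mem_filter, mem_filter]
      by_cases hc : CY.IsCyclicNumber m
      · exact Or.inl ⟨hm.1, hc⟩
      · exact Or.inr ⟨hm.1, hc, hm.2⟩
    exact_mod_cast (card_le_card h1).trans (card_union_le _ _)
  have e : c1 / 2 * y / L = c1 * y / L - c1 / 2 * (y / L) := by ring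
  rw [e]
  linarith

end Pool.Agent.H69.CU
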