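import Pool.Agent.H69.CU.Mid
import Pool.Agent.H69.CT.Shi

/-!
[H69 CU BADS] Rough numbers which are not cyclic in a short interval of length `y ≥ x^(2/5 + d)`, any sifting limit `w ≥ W0`.
-/

namespace Pool.Agent.H69.CU

open Finset Classical Filter

open Pool.Agent.H69.CP (Rough)
open Pool.Agent.H69.CT (ev_log)
open Pool.Agent.H69

/-- comparison of all the error terms -/
theorem bad_s_aux (d x y L P0 P1 T K S2 : ℝ) (hd : 0 < d) (hd1 : d ≤ 1 / 10) (hx : 100 ≤ x) (hL3 : 3 ≤ L)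
    (hy : x ^ (2 / 5 + d) ≤ y)
    (a1 : x ^ (1 / 5 + d / 2) ≤ P0) (a2 : P0 ≤ 2 * x ^ (1 / 5 + d / 2)) (a3 : P1 ≤ x ^ (1 / 3 : ℝ))
    (a4 : x ^ (1 / 3 : ℝ) ≤ 2 * P1) (b1 : T ≤ x ^ (2 / 5 + d / 2)) (b2 : x ^ (2 / 5 + d / 2) ≤ 2 * T) (hK0 : 0 ≤ K)
    (hK : K ≤ x ^ (d / 8)) (hS2 : 0 ≤ S2) (hS2L : S2 ≤ 2 * L) :
    P0 + 108 * (2 * L) * (x ^ (1 / 3 : ℝ) * P0 ^ (1 / 3 : ℝ)) +
      ((y / P0 + P1) + K * (y * T / P0 ^ 2 + y / P0 + 2 * T * S2 + 2 * P1) + (S2 * (y / P0) + 2 * x / T / P0)) +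
      (((2 * x / P1 ^ 2) * S2 + (y / P1) * S2 ^ 2) + (2 * x / P1 ^ 2 + (y / P1) * S2)) ≤
      500 * L ^ 2 * (y * x ^ (-(3 * d / 8))) := by
  have hx0 : 0 < x := by linarith
  have hx1 : 1 ≤ x := by linarith
  have hy0 : 0 < y := lt_of_lt_of_le (Real.rpow_pos_of_pos hx0 _) hy
  have mono : ∀ e f : ℝ, e ≤ f → x ^ e ≤ x ^ f := fun e f h => Real.rpow_le_rpow_of_exponent_le hx1 h
  have pos : ∀ e : ℝ, 0 < x ^ e := fun e => Real.rpow_pos_of_pos hx0 e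
  have hP0 : 0 < P0 := lt_of_lt_of_le (pos _) a1
  have hP1 : 0 < P1 := by
    have := pos (1 / 3)
    linarith
  have hT : 0 < T := by
    have := pos (2 / 5 + d / 2)
    linarith
  obtain ⟨Q, hQ⟩ : ∃ Q : ℝ, Q = y * x ^ (-(3 * d / 8)) := ⟨_, rfl⟩
  have hQ0 : 0 < Q := by rw [hQ]; exact mul_pos hy0 (pos _)
  have hZQ : x ^ (2 / 5 + 5 * d / 8) ≤ Q := by
    rw [hQ]
    calc x ^ (2 / 5 + 5 * d / 8) = x ^ (2 / 5 + d) * x ^ (-(3 * d / 8)) := by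
          rw [← Real.rpow_add hx0]
          congr 1
          ring
      _ ≤ y * x ^ (-(3 * d / 8)) := by gcongr
  have hyQ : ∀ e : ℝ, e ≤ -(3 * d / 8) → y * x ^ e ≤ Q := by
    intro e he
    rw [hQ]
    have := mono _ _ he
    gcongr
  have up : ∀ e : ℝ, e ≤ 2 / 5 + 5 * d / 8 → x ^ e ≤ Q := fun e he => (mono _ _ he).trans hZQ
  have yP0 : y / P0 ≤ y * x ^ (-(1 / 5 + d / 2)) := by
    rw [Real.rpow_neg hx0.le, ← div_eq_mul_inv]
    gcongr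
  have yP0Q : y / P0 ≤ Q := yP0.trans (hyQ _ (by linarith))
  have yP1 : y / P1 ≤ 2 * (y * x ^ (-(1 / 3 : ℝ))) := by
    rw [Real.rpow_neg hx0.le, ← div_eq_mul_inv, ← mul_div_assoc, div_le_div_iff₀ hP1 (pos _)]
    calc y * x ^ (1 / 3 : ℝ) ≤ y * (2 * P1) := by gcongr
      _ = 2 * y * P1 := by ring
  have yP1Q : y / P1 ≤ 2 * Q := by
    have := hyQ (-(1 / 3)) (by linarith)
    linarith
  have r1 : P0 ≤ 2 * Q := by
    have := up (1 / 5 + d / 2) (by linarith)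
    linarith
  have r2 : 108 * (2 * L) * (x ^ (1 / 3 : ℝ) * P0 ^ (1 / 3 : ℝ)) ≤ 432 * (L * Q) := by
    have h1 : P0 ^ (1 / 3 : ℝ) ≤ 2 * x ^ ((1 / 5 + d / 2) / 3) := by
      calc P0 ^ (1 / 3 : ℝ) ≤ (2 * x ^ (1 / 5 + d / 2)) ^ (1 / 3 : ℝ) := Real.rpow_le_rpow hP0.le a2 (by norm_num)
        _ = 2 ^ (1 / 3 : ℝ) * x ^ ((1 / 5 + d / 2) / 3) := by
          rw [Real.mul_rpow (by norm_num) (pos _).le, ← Real.rpow_mul hx0.le]
          congr 2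
          ring
        _ ≤ 2 * x ^ ((1 / 5 + d / 2) / 3) := by
          have h2 : (2 : ℝ) ^ (1 / 3 : ℝ) ≤ 2 ^ (1 : ℝ) :=
            Real.rpow_le_rpow_of_exponent_le (by norm_num) (by norm_num)
          rw [Real.rpow_one] at h2
          gcongr
    have h3 : x ^ (1 / 3 : ℝ) * (2 * x ^ ((1 / 5 + d / 2) / 3)) = 2 * x ^ (2 / 5 + d / 6) := by
      have : x ^ (2 / 5 + d / 6) = x ^ (1 / 3 : ℝ) * x ^ ((1 / 5 + d / 2) / 3) := by
        rw [← Real.rpow_add hx0]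
        congr 1
        ring
      rw [this]; ring
    calc 108 * (2 * L) * (x ^ (1 / 3 : ℝ) * P0 ^ (1 / 3 : ℝ)) ≤
          108 * (2 * L) * (x ^ (1 / 3 : ℝ) * (2 * x ^ ((1 / 5 + d / 2) / 3))) := by gcongr
      _ = 432 * (L * x ^ (2 / 5 + d / 6)) := by rw [h3]; ring
      _ ≤ 432 * (L * Q) := by
          have := up (2 / 5 + d / 6) (by linarith)
          gcongr
  have r3 : P1 ≤ Q := a3.trans (up _ (by linarith))
  have r4 : K * (y * T / P0 ^ 2) ≤ Q := by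
    have h1 : y * T / P0 ^ 2 ≤ y * x ^ (2 / 5 + d / 2) / (x ^ (1 / 5 + d / 2)) ^ 2 := by gcongr
    have h2 : x ^ (d / 8) * (y * x ^ (2 / 5 + d / 2) / (x ^ (1 / 5 + d / 2)) ^ 2) = Q := by
      have h3 : (x ^ (1 / 5 + d / 2)) ^ 2 = x ^ (2 / 5 + d) := by
        rw [← Real.rpow_natCast, ← Real.rpow_mul hx0.le]
        congr 1
        push_cast
        ring
      rw [h3, hQ, mul_div_assoc, ← Real.rpow_sub hx0, ← mul_assoc, mul_comm (x ^ (d / 8)) y, mul_assoc,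
        ← Real.rpow_add hx0]
      congr 2
      ring
    calc K * (y * T / P0 ^ 2) ≤ x ^ (d / 8) * (y * x ^ (2 / 5 + d / 2) / (x ^ (1 / 5 + d / 2)) ^ 2) := by gcongr
      _ = Q := h2
  have r5 : K * (y / P0) ≤ Q := by
    calc K * (y / P0) ≤ x ^ (d / 8) * (y * x ^ (-(1 / 5 + d / 2))) := by gcongr
      _ = y * x ^ (d / 8 + -(1 / 5 + d / 2)) := by
          rw [Real.rpow_add hx0]; ring
      _ ≤ Q := hyQ _ (by linarith)
  have r6 : K * (2 * T * S2) ≤ 4 * (L * Q) := by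
    calc K * (2 * T * S2) ≤ x ^ (d / 8) * (2 * x ^ (2 / 5 + d / 2) * (2 * L)) := by gcongr
      _ = 4 * (L * (x ^ (d / 8) * x ^ (2 / 5 + d / 2))) := by ring
      _ = 4 * (L * x ^ (2 / 5 + 5 * d / 8)) := by
          rw [← Real.rpow_add hx0]
          congr 3
          ring
      _ ≤ 4 * (L * Q) := by gcongr
  have r7 : K * (2 * P1) ≤ 2 * Q := by
    calc K * (2 * P1) ≤ x ^ (d / 8) * (2 * x ^ (1 / 3 : ℝ)) := by gcongr
      _ = 2 * x ^ (d / 8 + 1 / 3) := by rw [Real.rpow_add hx0]; ring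
      _ ≤ 2 * Q := by
          have := up (d / 8 + 1 / 3) (by linarith)
          gcongr
  have r8 : S2 * (y / P0) ≤ 2 * (L * Q) := by
    calc S2 * (y / P0) ≤ (2 * L) * Q := by gcongr
      _ = 2 * (L * Q) := by ring
  have r9 : 2 * x / T / P0 ≤ 4 * Q := by
    rw [div_div, div_le_iff₀ (by positivity)]
    have h1 : x = x ^ (2 / 5 - d) * (x ^ (2 / 5 + d / 2) * x ^ (1 / 5 + d / 2)) := by
      rw [← Real.rpow_add hx0, ← Real.rpow_add hx0]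
      nth_rewrite 1 [← Real.rpow_one x]
      congr 1
      ring
    have h2 := up (2 / 5 - d) (by linarith)
    calc 2 * x = 2 * (x ^ (2 / 5 - d) * (x ^ (2 / 5 + d / 2) * x ^ (1 / 5 + d / 2))) := by rw [← h1]
      _ ≤ 2 * (Q * ((2 * T) * P0)) := by gcongr
      _ = 4 * Q * (T * P0) := by ring
  have h8 : 2 * x / P1 ^ 2 ≤ 8 * Q := by
    rw [div_le_iff₀ (by positivity)]
    have h1 : x = x ^ (1 / 3 : ℝ) * (x ^ (1 / 3 : ℝ)) ^ 2 := by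
      rw [← Real.rpow_natCast, ← Real.rpow_mul hx0.le, ← Real.rpow_add hx0]
      nth_rewrite 1 [← Real.rpow_one x]
      congr 1
      norm_num
    have h2 := up (1 / 3) (by linarith)
    calc 2 * x = 2 * (x ^ (1 / 3 : ℝ) * (x ^ (1 / 3 : ℝ)) ^ 2) := by rw [← h1]
      _ ≤ 2 * (Q * (2 * P1) ^ 2) := by gcongr
      _ = 8 * Q * P1 ^ 2 := by ring
  have r10 : (2 * x / P1 ^ 2) * S2 ≤ 16 * (L * Q) := by
    calc (2 * x / P1 ^ 2) * S2 ≤ (8 * Q) * (2 * L) := by gcongr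
      _ = 16 * (L * Q) := by ring
  have r11 : (y / P1) * S2 ^ 2 ≤ 8 * (L ^ 2 * Q) := by
    calc (y / P1) * S2 ^ 2 ≤ (2 * Q) * (2 * L) ^ 2 := by gcongr
      _ = 8 * (L ^ 2 * Q) := by ring
  have r12 : (y / P1) * S2 ≤ 4 * (L * Q) := by
    calc (y / P1) * S2 ≤ (2 * Q) * (2 * L) := by gcongr
      _ = 4 * (L * Q) := by ring
  have l1 : 3 * (L * Q) ≤ L ^ 2 * Q := by
    have h1 : 3 * L ≤ L ^ 2 := by nlinarith
    calc 3 * (L * Q) = (3 * L) * Q := by ring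
      _ ≤ L ^ 2 * Q := by gcongr
  have l2 : 9 * Q ≤ L ^ 2 * Q := by
    have h1 : 9 ≤ L ^ 2 := by nlinarith
    gcongr
  have e : K * (y * T / P0 ^ 2 + y / P0 + 2 * T * S2 + 2 * P1) = K * (y * T / P0 ^ 2) + K * (y / P0) +
    K * (2 * T * S2) + K * (2 * P1) := by ring
  have e2 : 500 * L ^ 2 * (y * x ^ (-(3 * d / 8))) = 500 * (L ^ 2 * Q) := by rw [hQ]; ring
  rw [e, e2]
  linarith only [r1, r2, r3, r4, r5, r6, r7, r8, r9, h8, r10, r11, r12, l1, l2, yP0Q, hQ0]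

theorem bad_s (d : ℝ) (hd : 0 < d) (hd1 : d ≤ 1 / 10) : ∃ C W0 : ℝ, 0 < C ∧ 1 ≤ W0 ∧ ∃ x0 : ℕ, 20 ≤ x0 ∧
    ∀ x y : ℕ, x0 ≤ x → (x : ℝ) ^ (2 / 5 + d) ≤ y → y ≤ x → ∀ w : ℝ, W0 ≤ w →
      (((Ioc x (x + y)).filter fun m => ¬ CY.IsCyclicNumber m ∧ Rough w m).card : ℝ) ≤
        C * Real.log x ^ 2 * y / w + y * (x : ℝ) ^ (-d / 8) := by
  have t1 : Tendsto (fun x : ℕ => (x : ℝ)) atTop atTop := tendsto_natCast_atTop_atTop
  have e1 := ev_log 2 (d / 4) (1 / 500) (by positivity) (by norm_num)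
  have e5 : ∀ᶠ x : ℕ in atTop, (4 : ℝ) ≤ (x : ℝ) ^ (1 / 3 - (1 / 5 + d / 2)) :=
    ((tendsto_rpow_atTop (show (0 : ℝ) < 1 / 3 - (1 / 5 + d / 2) by linarith)).comp t1).eventually_ge_atTop _
  obtain ⟨x1, hx1⟩ := eventually_atTop.1 (e1.and e5)
  refine ⟨25960, (2 : ℝ) ^ (16 / d), by norm_num, Real.one_le_rpow (by norm_num) (by positivity), max x1 100, by
    have := le_max_right x1 100; omega, ?_⟩
  intro x y hx hy hyx w hw
  obtain ⟨g1, g5⟩ := hx1 x (le_trans (le_max_left _ _) hx)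
  have hx100 : 100 ≤ x := le_trans (le_max_right _ _) hx
  have hxR : (100 : ℝ) ≤ x := by exact_mod_cast hx100
  have hx0 : (0 : ℝ) < x := by linarith
  have hx1' : (1 : ℝ) ≤ x := by linarith
  obtain ⟨L, hL⟩ : ∃ L : ℝ, L = Real.log x := ⟨_, rfl⟩
  have hL3 : 3 ≤ L := by
    rw [hL, Real.le_log_iff_exp_le hx0]
    have h1 : Real.exp 3 = Real.exp 1 ^ 3 := by rw [← Real.exp_nat_mul]; norm_num
    have h2 := Real.exp_one_lt_d9
    rw [h1]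
    have h3 : Real.exp 1 ^ 3 ≤ 2.7182818286 ^ 3 := pow_le_pow_left₀ (Real.exp_pos _).le h2.le 3
    have h4 : (2.7182818286 : ℝ) ^ 3 ≤ 100 := by norm_num
    linarith
  rw [← hL] at g1
  have hW1 : (1 : ℝ) ≤ (2 : ℝ) ^ (16 / d) := Real.one_le_rpow (by norm_num) (by positivity)
  have hw1 : 1 ≤ w := hW1.trans hw
  have hw0 : 0 < w := by linarith
  have hlog2 : 0 < Real.log 2 := Real.log_pos (by norm_num)
  -- κ
  obtain ⟨κ, hκd⟩ : ∃ κ : ℕ, κ = ⌊d / 8 * L / Real.log 2⌋₊ := ⟨_, rfl⟩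
  have hq0 : 0 ≤ d / 8 * L / Real.log 2 := by positivity
  have hκ1 : (κ : ℝ) ≤ d / 8 * L / Real.log 2 := by rw [hκd]; exact Nat.floor_le hq0
  have hκ2 : d / 8 * L / Real.log 2 < κ + 1 := by rw [hκd]; exact Nat.lt_floor_add_one _
  have hK : (2 : ℝ) ^ κ ≤ (x : ℝ) ^ (d / 8) := by
    rw [← Real.rpow_natCast, Real.rpow_def_of_pos (by norm_num), Real.rpow_def_of_pos hx0, Real.exp_le_exp, ← hL]
    rw [le_div_iff₀ hlog2] at hκ1
    linarith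
  have hκ : 2 * (x : ℝ) < w ^ (κ + 1) := by
    calc 2 * (x : ℝ) < x * x := by nlinarith
      _ = Real.exp (2 * L) := by
        rw [two_mul, Real.exp_add, hL, Real.exp_log hx0]
      _ ≤ ((2 : ℝ) ^ (16 / d)) ^ (κ + 1) := by
        rw [← Real.rpow_natCast, ← Real.rpow_mul (by norm_num), Real.rpow_def_of_pos (by norm_num), Real.exp_le_exp]
        push_cast
        have h1 : d / 8 * L ≤ (κ + 1) * Real.log 2 := by
          rw [div_lt_iff₀ hlog2] at hκ2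
          exact hκ2.le
        calc 2 * L = 16 / d * (d / 8 * L) := by field_simp; norm_num
          _ ≤ 16 / d * ((κ + 1) * Real.log 2) := by gcongr
          _ = Real.log 2 * (16 / d * (κ + 1)) := by ring
      _ ≤ w ^ (κ + 1) := pow_le_pow_left₀ (by positivity) hw _
  -- parameters
  have pos : ∀ e : ℝ, 0 < (x : ℝ) ^ e := fun e => Real.rpow_pos_of_pos hx0 e
  have one : ∀ e : ℝ, 0 ≤ e → 1 ≤ (x : ℝ) ^ e := fun e he => Real.one_le_rpow hx1' he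
  obtain ⟨P0, hP0⟩ : ∃ P : ℕ, P = ⌈(x : ℝ) ^ (1 / 5 + d / 2)⌉₊ := ⟨_, rfl⟩
  obtain ⟨P1, hP1⟩ : ∃ P : ℕ, P = ⌊(x : ℝ) ^ (1 / 3 : ℝ)⌋₊ := ⟨_, rfl⟩
  obtain ⟨T, hT⟩ : ∃ T : ℕ, T = ⌊(x : ℝ) ^ (2 / 5 + d / 2)⌋₊ := ⟨_, rfl⟩
  have o1 := one (1 / 5 + d / 2) (by linarith)
  have o2 := one (1 / 3) (by norm_num)
  have o3 := one (2 / 5 + d / 2) (by linarith)
  have a1 : (x : ℝ) ^ (1 / 5 + d / 2) ≤ P0 := by rw [hP0]; exact Nat.le_ceil _
  have a2 : (P0 : ℝ) ≤ 2 * (x : ℝ) ^ (1 / 5 + d / 2) := by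
    have := (Nat.ceil_lt_add_one (pos (1 / 5 + d / 2)).le).le
    rw [← hP0] at this
    linarith
  have a3 : (P1 : ℝ) ≤ (x : ℝ) ^ (1 / 3 : ℝ) := by rw [hP1]; exact Nat.floor_le (pos _).le
  have a4 : (x : ℝ) ^ (1 / 3 : ℝ) ≤ 2 * P1 := by
    have h1 := Nat.lt_floor_add_one ((x : ℝ) ^ (1 / 3 : ℝ))
    rw [← hP1] at h1
    have h2 : 1 ≤ P1 := by rw [hP1]; exact Nat.le_floor (by exact_mod_cast o2)
    have h2 : (1 : ℝ) ≤ P1 := by exact_mod_cast h2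
    linarith
  have hT1 : 1 ≤ T := by rw [hT]; exact Nat.le_floor (by exact_mod_cast o3)
  have b1 : (T : ℝ) ≤ (x : ℝ) ^ (2 / 5 + d / 2) := by rw [hT]; exact Nat.floor_le (pos _).le
  have b2 : (x : ℝ) ^ (2 / 5 + d / 2) ≤ 2 * T := by
    have h1 := Nat.lt_floor_add_one ((x : ℝ) ^ (2 / 5 + d / 2))
    rw [← hT] at h1
    have h2 : (1 : ℝ) ≤ T := by exact_mod_cast hT1
    linarith
  have hP01 : 1 ≤ P0 := by
    have : (1 : ℝ) ≤ P0 := o1.trans a1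
    exact_mod_cast this
  have hPP : P0 ≤ P1 := by
    have h2 : (P0 : ℝ) ≤ P1 := by
      have h3 : 4 * (x : ℝ) ^ (1 / 5 + d / 2) ≤ (x : ℝ) ^ (1 / 3 : ℝ) := by
        calc 4 * (x : ℝ) ^ (1 / 5 + d / 2) ≤ (x : ℝ) ^ (1 / 3 - (1 / 5 + d / 2)) * (x : ℝ) ^ (1 / 5 + d / 2) := by
              gcongr
          _ = (x : ℝ) ^ (1 / 3 : ℝ) := by
              rw [← Real.rpow_add hx0]
              congr 1
              ring
      linarith
    exact_mod_cast h2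
  obtain ⟨S, hS⟩ : ∃ S : ℕ, S = Nat.sqrt (2 * x) := ⟨_, rfl⟩
  have hS3 : 3 ≤ S := by
    rw [hS, Nat.le_sqrt]; omega
  have hS2x : S * S ≤ 2 * x := by rw [hS]; exact Nat.sqrt_le _
  have hxx : (x : ℝ) ^ (1 / 3 : ℝ) ≤ x := by
    calc (x : ℝ) ^ (1 / 3 : ℝ) ≤ (x : ℝ) ^ (1 : ℝ) := Real.rpow_le_rpow_of_exponent_le hx1' (by norm_num)
      _ = x := Real.rpow_one _
  have hP1x : P1 ≤ 2 * x := by
    have h2 : (P1 : ℝ) ≤ 2 * x := by linarith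
    exact_mod_cast h2
  have hPx : P0 ^ 2 ≤ x := by
    have h2 : (P0 : ℝ) ^ 2 ≤ x := by
      have h3 : (P0 : ℝ) ≤ (x : ℝ) ^ (1 / 3 : ℝ) := by
        have : (P0 : ℝ) ≤ P1 := by exact_mod_cast hPP
        linarith
      calc (P0 : ℝ) ^ 2 ≤ ((x : ℝ) ^ (1 / 3 : ℝ)) ^ 2 := pow_le_pow_left₀ (by positivity) h3 2
        _ = (x : ℝ) ^ (2 / 3 : ℝ) := by
          rw [← Real.rpow_natCast, ← Real.rpow_mul hx0.le]
          congr 1
          push_cast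
          norm_num
        _ ≤ (x : ℝ) ^ (1 : ℝ) := Real.rpow_le_rpow_of_exponent_le hx1' (by norm_num)
        _ = x := Real.rpow_one _
    exact_mod_cast h2
  have hB := bad_short7 x y P0 P1 T κ S w hw1 (by omega) hyx hS hS3 hP01 hPP hP1x hPx hT1 hκ
  have hSx : S ≤ x := by nlinarith
  have hlogS0 : 0 ≤ Real.log S := Real.log_nonneg (by exact_mod_cast (by omega : 1 ≤ S))
  have hlogS : Real.log S ≤ L := by
    rw [hL]
    apply Real.log_le_log (by exact_mod_cast (by omega : 0 < S))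
    exact_mod_cast hSx
  have hΛ : 1 + Real.log S ≤ 2 * L := by linarith
  have hl2x : 1 + Real.log (2 * x) ≤ 2 * L := by
    rw [Real.log_mul (by norm_num) hx0.ne', ← hL]
    have := Real.log_two_lt_d9
    linarith
  have hl2x0 : 0 ≤ 1 + Real.log (2 * x) := by
    have := Real.log_nonneg (show (1 : ℝ) ≤ 2 * x by linarith)
    linarith
  have haux := bad_s_aux d x y L P0 P1 T (2 ^ κ) (1 + Real.log (2 * x)) hd hd1 hxR hL3 hy a1 a2 a3 a4 b1 b2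
    (by positivity) hK hl2x0 hl2x
  have f1 : 3245 * (1 + Real.log S) ^ 2 * (2 * y / w) ≤ 25960 * L ^ 2 * y / w := by
    calc 3245 * (1 + Real.log S) ^ 2 * (2 * y / w) ≤ 3245 * (2 * L) ^ 2 * (2 * y / w) := by gcongr
      _ = 25960 * L ^ 2 * y / w := by ring
  have f2 : 108 * (1 + Real.log S) * ((x : ℝ) ^ (1 / 3 : ℝ) * (P0 : ℝ) ^ (1 / 3 : ℝ)) ≤
      108 * (2 * L) * ((x : ℝ) ^ (1 / 3 : ℝ) * (P0 : ℝ) ^ (1 / 3 : ℝ)) := by gcongr
  have f3 : 500 * L ^ 2 * (y * (x : ℝ) ^ (-(3 * d / 8))) ≤ y * (x : ℝ) ^ (-d / 8) := by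
    calc 500 * L ^ 2 * (y * (x : ℝ) ^ (-(3 * d / 8))) ≤ 500 * (1 / 500 * (x : ℝ) ^ (d / 4)) *
          (y * (x : ℝ) ^ (-(3 * d / 8))) := by gcongr
      _ = y * ((x : ℝ) ^ (d / 4) * (x : ℝ) ^ (-(3 * d / 8))) := by ring
      _ = y * (x : ℝ) ^ (-d / 8) := by
          rw [← Real.rpow_add hx0]
          congr 2
          ring
  rw [← hL]
  linarith only [hB, haux, f1, f2, f3]

end Pool.Agent.H69.CU
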