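import Pool.Agent.H69.CP.Def

/-!
[H69 CU DIV] An integer `n < w^(κ+1)` has at most `2^κ` divisors without prime factors `≤ w`.

Proof. Let `l` be the list of the prime factors of `n` (with multiplicity, sorted) which are larger than `w`; `w ^ l.length ≤ l.prod ≤ n`,
so `l.length ≤ κ`. For a rough divisor `r` of `n` the list `r.primeFactorsList` is a sublist of `n.primeFactorsList`
(`Nat.primeFactorsList_sublist_of_dvd` or similar) and all its members are `> w`, so it is a sublist of `l`, and `r` is its product. So the
rough divisors are among the products of the `2 ^ l.length` sublists of `l`.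
-/

namespace Pool.Agent.H69.CU

open Finset Classical

open Pool.Agent.H69.CP (Rough)

private theorem pow_len (w : ℝ) (hw : 1 ≤ w) (l : List ℕ) (hl : ∀ p ∈ l, w < (p : ℝ)) :
    w ^ l.length ≤ (l.prod : ℝ) := by
  induction l with
  | nil => simp
  | cons p t ih =>
    have h1 := ih (fun q hq => hl q (List.mem_cons_of_mem _ hq))
    have h2 := hl p (List.mem_cons_self)
    rw [List.length_cons, List.prod_cons, pow_succ, Nat.cast_mul, mul_comm]
    exact mul_le_mul h2.le h1 (by positivity) (by positivity)

theorem rough_div (n κ : ℕ) (w : ℝ) (hn : 1 ≤ n) (hw : 1 ≤ w) (hnw : (n : ℝ) < w ^ (κ + 1)) :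
    ((n.divisors.filter fun r => Rough w r).card : ℝ) ≤ 2 ^ κ := by
  have hn0 : n ≠ 0 := by omega
  obtain ⟨l, hl⟩ : ∃ l : List ℕ, l = n.primeFactorsList.filter (fun p : ℕ => decide (w < (p : ℝ))) := ⟨_, rfl⟩
  have hlen : l.length ≤ κ := by
    by_contra hc
    have h1 : κ + 1 ≤ l.length := by omega
    have h2 : w ^ (κ + 1) ≤ w ^ l.length := pow_le_pow_right₀ hw h1
    have h3 := pow_len w hw l (by
      intro p hp
      rw [hl, List.mem_filter, decide_eq_true_iff] at hp
      exact hp.2)
    have h4 : l.prod ∣ n := by
      have h5 : l.prod ∣ n.primeFactorsList.prod := by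
        rw [hl]
        exact List.Sublist.prod_dvd_prod List.filter_sublist
      rwa [Nat.prod_primeFactorsList hn0] at h5
    have h5 : (l.prod : ℝ) ≤ n := by exact_mod_cast Nat.le_of_dvd hn h4
    linarith
  have hsub : (n.divisors.filter fun r => Rough w r) ⊆ (l.sublists.map List.prod).toFinset := by
    intro r hr
    rw [Finset.mem_filter, Nat.mem_divisors] at hr
    obtain ⟨⟨hrn, -⟩, hrr⟩ := hr
    have hr0 : r ≠ 0 := fun h => hn0 (by rw [h] at hrn; exact Nat.eq_zero_of_zero_dvd hrn)
    rw [List.mem_toFinset, List.mem_map]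
    refine ⟨r.primeFactorsList, ?_, Nat.prod_primeFactorsList hr0⟩
    rw [List.mem_sublists]
    have h1 : r.primeFactorsList.filter (fun p : ℕ => decide (w < (p : ℝ))) = r.primeFactorsList := by
      rw [List.filter_eq_self]
      intro p hp
      rw [decide_eq_true_iff]
      exact hrr p (Nat.prime_of_mem_primeFactorsList hp) (Nat.dvd_of_mem_primeFactorsList hp)
    rw [← h1, hl]
    exact (Nat.primeFactorsList_sublist_of_dvd hrn hn0).filter _
  have h6 : (n.divisors.filter fun r => Rough w r).card ≤ 2 ^ κ := by
    refine (Finset.card_le_card hsub).trans ((List.toFinset_card_le _).trans ?_)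
    rw [List.length_map, List.length_sublists]
    exact Nat.pow_le_pow_right (by norm_num) hlen
  exact_mod_cast h6

end Pool.Agent.H69.CU
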