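import Pool.Agent.H69.CT.Bad
import Pool.Agent.H69.CU.Div

/-!
[H69 CU MID] Numbers `m = r p (1 + k p)` in a short interval, `P0 < p ≤ P1`: for `r ≤ T` the number `m / p^2` (rounded down) is
`r k + r / p`, so that `r` is a divisor (without small prime factors) of one of few integers; for `r > T` there are few `k`.
-/

namespace Pool.Agent.H69.CU

open Finset Classical

open Pool.Agent.H69.CP (class_card dvd_card harm Rough)
open Pool.Agent.H69.CR (E1 E2 D L1 L2)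
open Pool.Agent.H69.CS (large_p2 large_sq2)
open Pool.Agent.H69.CT (part1)
open Pool.Agent.H69

/-- numbers `r p (1 + k p)` without small prime factors, `r ≤ T` -/
noncomputable def G (x y p T : ℕ) (w : ℝ) : Finset ℕ := (Ioc x (x + y)).filter fun m =>
  ∃ r k : ℕ, 1 ≤ r ∧ 1 ≤ k ∧ r ≤ T ∧ Rough w m ∧ m = r * p * (1 + k * p)

/-- numbers `r p (1 + k p)`, `r > T` -/
noncomputable def Kf (x y p T : ℕ) : Finset ℕ := (Ioc x (x + y)).filter fun m =>
  ∃ r k : ℕ, T < r ∧ 1 ≤ k ∧ m = r * p * (1 + k * p)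

theorem G_card (x y p T κ : ℕ) (w : ℝ) (hw : 1 ≤ w) (hp : 0 < p) (hyx : y ≤ x) (hκ : 2 * (x : ℝ) < w ^ (κ + 1)) :
    ((G x y p T w).card : ℝ) ≤ (y / (p : ℝ) ^ 2 + 2) * (T / p + 1) * 2 ^ κ := by
  have hpR : (0 : ℝ) < p := by exact_mod_cast hp
  have hp2 : 0 < p ^ 2 := by positivity
  have hsub : G x y p T w ⊆ (Icc (x / p ^ 2) ((x + y) / p ^ 2)).biUnion fun N => (range (T / p + 1)).biUnion fun j =>
      (((N - j).divisors.filter fun r => Rough w r).image fun r => (N - j) * p ^ 2 + r * p) := by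
    intro m hm
    unfold G at hm
    rw [mem_filter, mem_Ioc] at hm
    obtain ⟨⟨hm1, hm2⟩, r, k, hr, hk, hrT, hrough, hmr⟩ := hm
    have hN : m / p ^ 2 = r * k + r / p := by
      have e1 : m = r * p + (r * k) * p ^ 2 := by rw [hmr]; ring
      rw [e1, Nat.add_mul_div_right _ _ hp2, pow_two, Nat.mul_div_mul_right _ _ hp, add_comm]
    have hNj : m / p ^ 2 - r / p = r * k := by omega
    rw [mem_biUnion]
    refine ⟨m / p ^ 2, mem_Icc.2 ⟨Nat.div_le_div_right hm1.le, Nat.div_le_div_right hm2⟩, ?_⟩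
    rw [mem_biUnion]
    refine ⟨r / p, mem_range.2 (Nat.lt_succ_of_le (Nat.div_le_div_right hrT)), ?_⟩
    rw [mem_image]
    refine ⟨r, ?_, ?_⟩
    · rw [mem_filter, Nat.mem_divisors, hNj]
      have hk0 : k ≠ 0 := by omega
      have hr0 : r ≠ 0 := by omega
      refine ⟨⟨Nat.dvd_mul_right r k, Nat.mul_ne_zero hr0 hk0⟩, ?_⟩
      intro q hq hqr
      apply hrough q hq
      rw [hmr, mul_assoc]
      exact Dvd.dvd.mul_right hqr _
    · rw [hNj, hmr]; ring
  have hin : ∀ N ∈ Icc (x / p ^ 2) ((x + y) / p ^ 2), ∀ j : ℕ,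
      ((((N - j).divisors.filter fun r => Rough w r).image fun r => (N - j) * p ^ 2 + r * p).card : ℝ) ≤ 2 ^ κ := by
    intro N hN j
    refine le_trans (Nat.cast_le.2 card_image_le) ?_
    rcases Nat.eq_zero_or_pos (N - j) with h0 | h0
    · rw [h0, Nat.divisors_zero, filter_empty, card_empty, Nat.cast_zero]
      positivity
    · apply rough_div (N - j) κ w h0 hw
      refine lt_of_le_of_lt ?_ hκ
      have h1 : N - j ≤ 2 * x := by
        have h2 := (mem_Icc.1 hN).2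
        have h3 : (x + y) / p ^ 2 ≤ x + y := Nat.div_le_self _ _
        omega
      exact_mod_cast h1
  have hNc : ((Icc (x / p ^ 2) ((x + y) / p ^ 2)).card : ℝ) ≤ y / (p : ℝ) ^ 2 + 2 := by
    rw [Nat.card_Icc]
    have h1 : (((x + y) / p ^ 2 : ℕ) : ℝ) ≤ ((x : ℝ) + y) / (p : ℝ) ^ 2 := by
      have := @Nat.cast_div_le ℝ _ _ _ (x + y) (p ^ 2)
      push_cast at this
      exact this
    have h2 : (x : ℝ) / (p : ℝ) ^ 2 ≤ ((x / p ^ 2 : ℕ) : ℝ) + 1 := by
      rw [div_le_iff₀ (by positivity)]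
      have h3 := Nat.lt_div_mul_add (a := x) hp2
      have h4 : x ≤ (x / p ^ 2 + 1) * p ^ 2 := by nlinarith
      exact_mod_cast h4
    have h3 : x / p ^ 2 ≤ (x + y) / p ^ 2 + 1 := le_trans (Nat.div_le_div_right (by omega)) (Nat.le_succ _)
    push_cast [Nat.cast_sub h3]
    rw [add_div] at h1
    linarith
  have hTc : ((range (T / p + 1)).card : ℝ) ≤ T / p + 1 := by
    rw [card_range]
    push_cast
    have : ((T / p : ℕ) : ℝ) ≤ (T : ℝ) / p := Nat.cast_div_le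
    linarith
  have hinner : ∀ N ∈ Icc (x / p ^ 2) ((x + y) / p ^ 2), (((range (T / p + 1)).biUnion fun j =>
      (((N - j).divisors.filter fun r => Rough w r).image fun r => (N - j) * p ^ 2 + r * p)).card : ℝ) ≤
      (T / p + 1) * 2 ^ κ := by
    intro N hN
    calc (((range (T / p + 1)).biUnion fun j =>
          (((N - j).divisors.filter fun r => Rough w r).image fun r => (N - j) * p ^ 2 + r * p)).card : ℝ)
        ≤ ((∑ j ∈ range (T / p + 1), (((N - j).divisors.filter fun r => Rough w r).image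
          fun r => (N - j) * p ^ 2 + r * p).card : ℕ) : ℝ) := by exact_mod_cast card_biUnion_le
      _ ≤ ∑ j ∈ range (T / p + 1), (2 : ℝ) ^ κ := by
          push_cast
          exact sum_le_sum fun j _ => hin N hN j
      _ = ((range (T / p + 1)).card : ℝ) * 2 ^ κ := by rw [sum_const, nsmul_eq_mul]
      _ ≤ (T / p + 1) * 2 ^ κ := by gcongr
  calc ((G x y p T w).card : ℝ) ≤ ((∑ N ∈ Icc (x / p ^ 2) ((x + y) / p ^ 2), ((range (T / p + 1)).biUnion fun j =>
      (((N - j).divisors.filter fun r => Rough w r).image fun r => (N - j) * p ^ 2 + r * p)).card : ℕ) : ℝ) := by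
        exact_mod_cast (card_le_card hsub).trans card_biUnion_le
    _ ≤ ∑ N ∈ Icc (x / p ^ 2) ((x + y) / p ^ 2), ((T : ℝ) / p + 1) * 2 ^ κ := by
        push_cast
        exact sum_le_sum fun N hN => hinner N hN
    _ = ((Icc (x / p ^ 2) ((x + y) / p ^ 2)).card : ℝ) * (((T : ℝ) / p + 1) * 2 ^ κ) := by
        rw [sum_const, nsmul_eq_mul]
    _ ≤ (y / (p : ℝ) ^ 2 + 2) * (((T : ℝ) / p + 1) * 2 ^ κ) := by gcongr
    _ = _ := by ring

theorem Kf_card (x y p T : ℕ) (hp : 0 < p) (hT : 1 ≤ T) (hx : 1 ≤ x) (hyx : y ≤ x) :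
    ((Kf x y p T).card : ℝ) ≤ (1 + Real.log (2 * x)) * (y / (p : ℝ) ^ 2) + 2 * x / T * (1 / (p : ℝ) ^ 2) := by
  have hpR : (0 : ℝ) < p := by exact_mod_cast hp
  have hTR : (0 : ℝ) < T := by exact_mod_cast hT
  have hxR : (1 : ℝ) ≤ x := by exact_mod_cast hx
  set B : ℝ := 2 * x / T * (1 / (p : ℝ) ^ 2) with hB
  have hB0 : 0 ≤ B := by positivity
  have hsub : Kf x y p T ⊆ (Icc 1 ⌊B⌋₊).biUnion fun k => (Ioc x (x + y)).filter fun m => p * (1 + k * p) ∣ m := by
    intro m hm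
    unfold Kf at hm
    rw [mem_filter, mem_Ioc] at hm
    obtain ⟨⟨hm1, hm2⟩, r, k, hr, hk, hmr⟩ := hm
    rw [mem_biUnion]
    refine ⟨k, mem_Icc.2 ⟨hk, ?_⟩, ?_⟩
    · apply Nat.le_floor
      have h1 : k * T * p ^ 2 ≤ 2 * x := by
        have h2 : k * T * p ^ 2 ≤ r * p * (1 + k * p) := by
          have h3 : k * T * p ^ 2 ≤ k * r * p ^ 2 := by gcongr
          nlinarith
        omega
      have h2 : (k : ℝ) * T * (p : ℝ) ^ 2 ≤ 2 * x := by exact_mod_cast h1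
      rw [hB, mul_one_div, div_div, le_div_iff₀ (by positivity)]
      linarith
    · rw [mem_filter, mem_Ioc]
      exact ⟨⟨hm1, hm2⟩, ⟨r, by rw [hmr]; ring⟩⟩
  have hBx : ⌊B⌋₊ ≤ 2 * x := by
    have h1 : B ≤ 2 * x := by
      rw [hB, mul_one_div, div_div]
      apply div_le_self (by positivity)
      have h2 : (1 : ℝ) ≤ T := by exact_mod_cast hT
      have h3 : (1 : ℝ) ≤ (p : ℝ) ^ 2 := by exact_mod_cast Nat.one_le_pow 2 p hp
      nlinarith
    have h2 : (⌊B⌋₊ : ℝ) ≤ 2 * x := (Nat.floor_le hB0).trans h1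
    exact_mod_cast h2
  calc ((Kf x y p T).card : ℝ) ≤ ((∑ k ∈ Icc 1 ⌊B⌋₊, ((Ioc x (x + y)).filter fun m => p * (1 + k * p) ∣ m).card : ℕ) : ℝ) := by
        exact_mod_cast (card_le_card hsub).trans card_biUnion_le
    _ ≤ ∑ k ∈ Icc 1 ⌊B⌋₊, (1 / (k : ℝ) * (y / (p : ℝ) ^ 2) + 1) := by
        push_cast
        refine sum_le_sum fun k hk => ?_
        have hk1 : 1 ≤ k := (mem_Icc.1 hk).1
        have hk0 : (0 : ℝ) < k := by exact_mod_cast hk1
        have := dvd_card x y (p * (1 + k * p)) (by positivity)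
        refine this.trans ?_
        push_cast
        have h5 : (y : ℝ) / (p * (1 + k * p)) ≤ 1 / k * (y / (p : ℝ) ^ 2) := by
          rw [div_mul_div_comm, one_mul]
          apply div_le_div_of_nonneg_left (by positivity) (by positivity)
          nlinarith
        linarith
    _ = (∑ k ∈ Icc 1 ⌊B⌋₊, 1 / (k : ℝ)) * (y / (p : ℝ) ^ 2) + (⌊B⌋₊ : ℝ) := by
        rw [sum_add_distrib, ← sum_mul]
        simp
    _ ≤ (1 + Real.log (2 * x)) * (y / (p : ℝ) ^ 2) + B := by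
        have h1 : ∑ k ∈ Icc 1 ⌊B⌋₊, 1 / (k : ℝ) ≤ 1 + Real.log (2 * x) := by
          have h2 : ∑ k ∈ Icc 1 ⌊B⌋₊, 1 / (k : ℝ) ≤ ∑ k ∈ Icc 1 (2 * x), 1 / (k : ℝ) := by
            apply sum_le_sum_of_subset_of_nonneg
            · exact Icc_subset_Icc_right hBx
            · intro r _ _
              positivity
          have h3 := harm (2 * x)
          push_cast at h3
          linarith
        have h2 := Nat.floor_le hB0
        gcongr

theorem bad_sub7 (x y P0 P1 T : ℕ) (w : ℝ) (hw : 1 ≤ w) (hyx : y ≤ x) :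
    ((Ioc x (x + y)).filter fun m => ¬ CY.IsCyclicNumber m ∧ Rough w m) ⊆
      ((Ioc ⌊w⌋₊ P0).biUnion fun p => D x y p ∪ (E1 x y (Nat.sqrt (2 * x)) p ∪ E2 x y (Nat.sqrt (2 * x)) p)) ∪
        (((Ioc P0 P1).biUnion fun p => D x y p ∪ (G x y p T w ∪ Kf x y p T)) ∪ (L1 x y P1 ∪ L2 x y P1)) := by
  intro m hm
  rw [mem_filter, mem_Ioc] at hm
  obtain ⟨⟨hm1, hm2⟩, hc, hr⟩ := hm
  obtain ⟨p, hp, hpm, h⟩ := CP.A.dvd_totient m (by omega) hc
  have hwp : w < p := hr p hp hpm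
  have hp0 : 0 < p := hp.pos
  set S := Nat.sqrt (2 * x) with hS
  have hSlt : 2 * x < (S + 1) * (S + 1) := Nat.lt_succ_sqrt (2 * x)
  have hm0 : 0 < m := by omega
  have hfl : ⌊w⌋₊ < p := (Nat.floor_lt (by linarith)).2 hwp
  rw [mem_union]
  rcases h with h | ⟨q, hq, hqp, hpq⟩
  · have hD : m ∈ D x y p := by
      unfold D
      rw [mem_filter, mem_Ioc]
      exact ⟨⟨hm1, hm2⟩, h⟩
    rcases Nat.lt_or_ge P0 p with h0 | h0
    · right
      rw [mem_union]
      rcases Nat.lt_or_ge P1 p with h1 | h1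
      · right
        rw [mem_union]
        right
        unfold L2
        rw [mem_filter, mem_Ioc]
        exact ⟨⟨hm1, hm2⟩, p, h1, h⟩
      · left
        rw [mem_biUnion]
        exact ⟨p, mem_Ioc.2 ⟨h0, h1⟩, mem_union_left _ hD⟩
    · left
      rw [mem_biUnion]
      exact ⟨p, mem_Ioc.2 ⟨hfl, h0⟩, mem_union_left _ hD⟩
  · -- q = 1 + k p
    obtain ⟨r, hrm⟩ := hpq
    set k := q / p with hk
    have hqk : q = 1 + k * p := by
      have := Nat.div_add_mod q p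
      rw [hqp] at this
      rw [hk]
      linarith
    have hk1 : 1 ≤ k := by
      rcases Nat.eq_zero_or_pos k with h0 | h0
      · rw [h0] at hqk
        have := hq.two_le
        omega
      · exact h0
    have hr1 : 1 ≤ r := by
      rcases Nat.eq_zero_or_pos r with h0 | h0
      · rw [h0] at hrm
        omega
      · exact h0
    have hm3 : m = r * p * (1 + k * p) := by
      rw [hrm, hqk]; ring
    rcases Nat.lt_or_ge P0 p with h0 | h0
    · right
      rw [mem_union]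
      rcases Nat.lt_or_ge P1 p with h1 | h1
      · right
        rw [mem_union]
        left
        unfold L1
        rw [mem_filter, mem_Ioc]
        exact ⟨⟨hm1, hm2⟩, p, r, k, h1, hr1, hk1, hm3⟩
      · left
        rw [mem_biUnion]
        refine ⟨p, mem_Ioc.2 ⟨h0, h1⟩, ?_⟩
        rw [mem_union, mem_union]
        right
        rcases Nat.lt_or_ge T r with h2 | h2
        · right
          unfold Kf
          rw [mem_filter, mem_Ioc]
          exact ⟨⟨hm1, hm2⟩, r, k, h2, hk1, hm3⟩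
        · left
          unfold G
          rw [mem_filter, mem_Ioc]
          exact ⟨⟨hm1, hm2⟩, r, k, hr1, hk1, h2, hr, hm3⟩
    · left
      have hlt : (r * p) * (k * p) < m := by
        rw [hm3]
        have : 0 < r * p := Nat.mul_pos (by omega) hp0
        nlinarith
      have hor : r ≤ S / p ∨ k ≤ S / p := by
        by_contra hcon
        push Not at hcon
        have h1 : S < r * p := by
          have := (Nat.div_lt_iff_lt_mul hp0).1 hcon.1
          exact this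
        have h2 : S < k * p := by
          have := (Nat.div_lt_iff_lt_mul hp0).1 hcon.2
          exact this
        have h3 : (S + 1) * (S + 1) ≤ (r * p) * (k * p) := Nat.mul_le_mul h1 h2
        omega
      rw [mem_biUnion]
      refine ⟨p, mem_Ioc.2 ⟨hfl, h0⟩, ?_⟩
      rw [mem_union, mem_union]
      right
      rcases hor with h2 | h2
      · left
        unfold E1
        rw [mem_filter, mem_Ioc]
        exact ⟨⟨hm1, hm2⟩, r, k, hr1, hk1, h2, hm3⟩
      · right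
        unfold E2
        rw [mem_filter, mem_Ioc]
        exact ⟨⟨hm1, hm2⟩, r, k, hr1, hk1, h2, hm3⟩

theorem part2 (x y P0 P1 T κ : ℕ) (w : ℝ) (hw : 1 ≤ w) (hx : 1 ≤ x) (hyx : y ≤ x) (hP0 : 1 ≤ P0) (hP01 : P0 ≤ P1)
    (hP1x : P1 ≤ 2 * x) (hT : 1 ≤ T) (hκ : 2 * (x : ℝ) < w ^ (κ + 1)) :
    ((((Ioc P0 P1).biUnion fun p => D x y p ∪ (G x y p T w ∪ Kf x y p T)).card : ℕ) : ℝ) ≤
      (y / P0 + P1) + 2 ^ κ * (y * T / P0 ^ 2 + y / P0 + 2 * T * (1 + Real.log (2 * x)) + 2 * P1) +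
      ((1 + Real.log (2 * x)) * (y / P0) + 2 * x / T / P0) := by
  have hP0R : (0 : ℝ) < P0 := by exact_mod_cast hP0
  have hP01R : (1 : ℝ) ≤ P0 := by exact_mod_cast hP0
  have hTR : (0 : ℝ) < T := by exact_mod_cast hT
  have hxR : (1 : ℝ) ≤ x := by exact_mod_cast hx
  have hl2 : 0 ≤ Real.log (2 * x) := Real.log_nonneg (by linarith)
  have hs2 : ∑ p ∈ Ioc P0 P1, 1 / (p : ℝ) ^ 2 ≤ 1 / (P0 : ℝ) := by
    have := sum_Ioc_inv_sq_le_sub (α := ℝ) (k := P0) (n := P1) (by omega) hP01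
    have e : ∑ p ∈ Ioc P0 P1, 1 / (p : ℝ) ^ 2 = ∑ i ∈ Ioc P0 P1, ((i : ℝ) ^ 2)⁻¹ := by
      apply sum_congr rfl
      intro p _
      rw [one_div]
    rw [e, one_div]
    have : (0 : ℝ) ≤ (P1 : ℝ)⁻¹ := by positivity
    linarith
  have hs1 : ∑ p ∈ Ioc P0 P1, 1 / (p : ℝ) ≤ 1 + Real.log (2 * x) := by
    have h2 : ∑ p ∈ Ioc P0 P1, 1 / (p : ℝ) ≤ ∑ k ∈ Icc 1 (2 * x), 1 / (k : ℝ) := by
      apply sum_le_sum_of_subset_of_nonneg
      · intro p hp
        rw [mem_Ioc] at hp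
        rw [mem_Icc]
        omega
      · intro r _ _
        positivity
    have h3 := harm (2 * x)
    push_cast at h3
    linarith
  have hcard : ((Ioc P0 P1).card : ℝ) ≤ P1 := by
    rw [Nat.card_Ioc]
    exact_mod_cast Nat.sub_le P1 P0
  set Λ := 1 + Real.log (2 * x) with hΛ
  calc ((((Ioc P0 P1).biUnion fun p => D x y p ∪ (G x y p T w ∪ Kf x y p T)).card : ℕ) : ℝ)
      ≤ ((∑ p ∈ Ioc P0 P1, (D x y p ∪ (G x y p T w ∪ Kf x y p T)).card : ℕ) : ℝ) := by
        exact_mod_cast card_biUnion_le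
    _ ≤ ∑ p ∈ Ioc P0 P1, (((y : ℝ) + 2 ^ κ * (y * T / P0) + 2 ^ κ * y + Λ * y + 2 * x / T) * (1 / (p : ℝ) ^ 2) +
          ((1 + 2 ^ κ * 2) + 2 ^ κ * (2 * T) * (1 / (p : ℝ)))) := by
        push_cast
        refine sum_le_sum fun p hp => ?_
        rw [mem_Ioc] at hp
        have hp0 : 0 < p := by omega
        have hpR : (0 : ℝ) < p := by exact_mod_cast hp0
        have hPp : (P0 : ℝ) ≤ p := by exact_mod_cast hp.1.le
        have e0 : ((D x y p).card : ℝ) ≤ y / (p : ℝ) ^ 2 + 1 := by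
          have := dvd_card x y (p ^ 2) (by positivity)
          push_cast at this
          exact this
        have e1 := G_card x y p T κ w hw hp0 hyx hκ
        have e2 := Kf_card x y p T hp0 hT hx hyx
        have e3 : ((D x y p ∪ (G x y p T w ∪ Kf x y p T)).card : ℝ) ≤
            (D x y p).card + ((G x y p T w).card + (Kf x y p T).card) := by
          have a1 := card_union_le (D x y p) (G x y p T w ∪ Kf x y p T)
          have a2 := card_union_le (G x y p T w) (Kf x y p T)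
          exact_mod_cast a1.trans (Nat.add_le_add_left a2 _)
        have e4 : (y / (p : ℝ) ^ 2 + 2) * (T / p + 1) * 2 ^ κ ≤
            (2 ^ κ * (y * T / P0) + 2 ^ κ * y) * (1 / (p : ℝ) ^ 2) + (2 ^ κ * 2 + 2 ^ κ * (2 * T) * (1 / (p : ℝ))) := by
          have h1 : (y / (p : ℝ) ^ 2 + 2) * (T / p + 1) * 2 ^ κ = 2 ^ κ * (y * T / p) * (1 / (p : ℝ) ^ 2) +
              2 ^ κ * y * (1 / (p : ℝ) ^ 2) + (2 ^ κ * 2 + 2 ^ κ * (2 * T) * (1 / (p : ℝ))) := by
            field_simp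
            ring
          have h2 : (y : ℝ) * T / p ≤ y * T / P0 := by gcongr
          have h3 : 2 ^ κ * (y * T / p) * (1 / (p : ℝ) ^ 2) ≤ 2 ^ κ * (y * T / P0) * (1 / (p : ℝ) ^ 2) := by gcongr
          rw [h1]
          linarith
        have e5 : ((y : ℝ) + 2 ^ κ * (y * T / P0) + 2 ^ κ * y + Λ * y + 2 * x / T) * (1 / (p : ℝ) ^ 2) +
          ((1 + 2 ^ κ * 2) + 2 ^ κ * (2 * T) * (1 / (p : ℝ))) = (y / (p : ℝ) ^ 2 + 1) +
          (((2 ^ κ * (y * T / P0) + 2 ^ κ * y) * (1 / (p : ℝ) ^ 2) +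
            (2 ^ κ * 2 + 2 ^ κ * (2 * T) * (1 / (p : ℝ)))) +
          (Λ * (y / (p : ℝ) ^ 2) + 2 * x / T * (1 / (p : ℝ) ^ 2))) := by ring
        rw [e5]
        rw [← hΛ] at e2
        linarith
    _ = ((y : ℝ) + 2 ^ κ * (y * T / P0) + 2 ^ κ * y + Λ * y + 2 * x / T) * (∑ p ∈ Ioc P0 P1, 1 / (p : ℝ) ^ 2) +
        (((Ioc P0 P1).card : ℝ) * (1 + 2 ^ κ * 2) + 2 ^ κ * (2 * T) * ∑ p ∈ Ioc P0 P1, 1 / (p : ℝ)) := by
        rw [sum_add_distrib, sum_add_distrib, ← mul_sum, ← mul_sum, sum_const, nsmul_eq_mul]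
    _ ≤ ((y : ℝ) + 2 ^ κ * (y * T / P0) + 2 ^ κ * y + Λ * y + 2 * x / T) * (1 / (P0 : ℝ)) +
        ((P1 : ℝ) * (1 + 2 ^ κ * 2) + 2 ^ κ * (2 * T) * Λ) := by
        gcongr
    _ = _ := by
        field_simp
        ring

theorem bad_short7 (x y P0 P1 T κ S : ℕ) (w : ℝ) (hw : 1 ≤ w) (hx : 1 ≤ x) (hyx : y ≤ x) (hS : S = Nat.sqrt (2 * x))
    (hS3 : 3 ≤ S) (hP0 : 1 ≤ P0) (hP01 : P0 ≤ P1) (hP1x : P1 ≤ 2 * x) (hPx : P0 ^ 2 ≤ x) (hT : 1 ≤ T)
    (hκ : 2 * (x : ℝ) < w ^ (κ + 1)) :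
    (((Ioc x (x + y)).filter fun m => ¬ CY.IsCyclicNumber m ∧ Rough w m).card : ℝ) ≤
      (3245 * (1 + Real.log S) ^ 2 * (2 * y / w) + P0 + 108 * (1 + Real.log S) * ((x : ℝ) ^ (1 / 3 : ℝ) *
        (P0 : ℝ) ^ (1 / 3 : ℝ))) +
      ((y / P0 + P1) + 2 ^ κ * (y * T / P0 ^ 2 + y / P0 + 2 * T * (1 + Real.log (2 * x)) + 2 * P1) +
      ((1 + Real.log (2 * x)) * (y / P0) + 2 * x / T / P0)) +
      (((2 * (x : ℝ) / P1 ^ 2) * (1 + Real.log (2 * x)) + (y / P1) * (1 + Real.log (2 * x)) ^ 2) +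
      (2 * (x : ℝ) / P1 ^ 2 + (y / P1) * (1 + Real.log (2 * x)))) := by
  have hm1 := part1 x y P0 S w hw hS hS3 hPx
  have hm2 := part2 x y P0 P1 T κ w hw hx hyx hP0 hP01 hP1x hT hκ
  have hl1 := large_p2 x y P1 (hP0.trans hP01) hx hyx
  have hl2 := large_sq2 x y P1 (hP0.trans hP01) hx hyx
  have hsub := bad_sub7 x y P0 P1 T w hw hyx
  rw [← hS] at hsub
  have h1 := (card_le_card hsub).trans (card_union_le _ _)
  have h2 := card_union_le ((Ioc P0 P1).biUnion fun p => D x y p ∪ (G x y p T w ∪ Kf x y p T)) (L1 x y P1 ∪ L2 x y P1)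
  have h4 := card_union_le (L1 x y P1) (L2 x y P1)
  have h5 : (((Ioc x (x + y)).filter fun m => ¬ CY.IsCyclicNumber m ∧ Rough w m).card : ℝ) ≤
      ((((Ioc ⌊w⌋₊ P0).biUnion fun p => D x y p ∪ (E1 x y S p ∪ E2 x y S p)).card : ℕ) : ℝ) +
      ((((Ioc P0 P1).biUnion fun p => D x y p ∪ (G x y p T w ∪ Kf x y p T)).card : ℕ) +
      (((L1 x y P1).card : ℝ) + ((L2 x y P1).card : ℝ))) := by
    have := h1.trans (Nat.add_le_add_left (h2.trans (Nat.add_le_add_left h4 _)) _)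
    exact_mod_cast this
  unfold L1 L2 at h5
  linarith

end Pool.Agent.H69.CU
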